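import Mathlib
import Pool.Agent.H577R3.RM.Stmts

set_option autoImplicit false

/-! Windows are frequent (union bound over the window lemma). -/

namespace Pool.Agent.H577R3.RM

namespace C0Laux

theorem c0_isRed {n : ℕ} (k k' : Fin n) : IsRed (c0 k k') := by
  intro i j hij h1
  fin_cases i <;> fin_cases j <;> simp_all [c0]

end C0Laux

open C0Laux

open Classical in
theorem taskC0L (h : TaskWL) : TaskC0L := by
  intro n hn
  have hκ : 1 ≤ Nat.card (RW n 4) := by
    have : Nonempty (RW n 4) := ⟨⟨c0 ⟨0, by omega⟩ ⟨1, by omega⟩, c0_isRed _ _⟩⟩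
    exact Nat.card_pos
  generalize hκd : Nat.card (RW n 4) = κ at hκ
  refine ⟨n ^ 2, 4 * κ, by omega, ?_⟩
  intro L ℓ
  let Q : Fin n × Fin n × Fin (ℓ + 1) → RW n ℓ → Prop := fun q w =>
    (q.2.2.1 + L) * 6 ≤ ℓ ∧ ∀ t ∈ Finset.Ico q.2.2.1 (q.2.2.1 + L),
      ∀ c ∈ ({c0 q.1 q.2.1} : Finset (Fin 4 → Lt n)), ¬ At w.1 (t * (4 + 2) + 1) c
  have hA : ∀ q, (Finset.univ.filter (Q q)).card * (4 * κ) ^ L ≤
      (4 * κ - 1) ^ L * Nat.card (RW n ℓ) := by
    intro q
    by_cases hq : (q.2.2.1 + L) * 6 ≤ ℓ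
    · have := h n 4 ℓ κ {c0 q.1 q.2.1} (Finset.Ico q.2.2.1 (q.2.2.1 + L)) hn (by norm_num)
        (by
          intro c hc
          rw [Finset.mem_singleton] at hc
          subst hc
          exact c0_isRed _ _)
        (by rw [Finset.card_singleton, mul_one, hκd])
        (by
          intro t ht
          rw [Finset.mem_Ico] at ht
          have : t + 1 ≤ q.2.2.1 + L := ht.2
          calc (t + 1) * (4 + 2) ≤ (q.2.2.1 + L) * 6 := Nat.mul_le_mul_right 6 this
            _ ≤ ℓ := hq)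
      rw [Nat.card_Ico, Nat.add_sub_cancel_left] at this
      refine le_trans (Nat.mul_le_mul_right _ ?_) this
      rw [Nat.card_eq_fintype_card, Fintype.card_subtype]
      refine Finset.card_le_card (fun w hw => ?_)
      rw [Finset.mem_filter] at hw ⊢
      exact ⟨hw.1, hw.2.2⟩
    · have : Finset.univ.filter (Q q) = ∅ := by
        rw [Finset.filter_eq_empty_iff]
        intro w _ hw
        exact hq hw.1
      rw [this]
      simp
  have hsub : Finset.univ.filter (fun w : RW n ℓ => ¬ C0 L w.1) ⊆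
      Finset.univ.biUnion (fun q => Finset.univ.filter (Q q)) := by
    intro w hw
    rw [Finset.mem_filter] at hw
    have hw2 := hw.2
    unfold C0 at hw2
    push Not at hw2
    obtain ⟨k, k', hkk, t0, ht0, hno⟩ := hw2
    rw [Finset.mem_biUnion]
    refine ⟨(k, k', ⟨t0, by omega⟩), Finset.mem_univ _, ?_⟩
    rw [Finset.mem_filter]
    refine ⟨Finset.mem_univ _, ht0, ?_⟩
    intro t ht c hc hAt
    rw [Finset.mem_Ico] at ht
    rw [Finset.mem_singleton] at hc
    subst hc
    refine hno t ht.1 ht.2 (Or.inl ?_)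
    have e : 6 * t + 1 = t * (4 + 2) + 1 := by ring
    rw [e]
    exact hAt
  have hcard : Nat.card {w : RW n ℓ // ¬ C0 L w.1} ≤
      ∑ q : Fin n × Fin n × Fin (ℓ + 1), (Finset.univ.filter (Q q)).card := by
    rw [Nat.card_eq_fintype_card, Fintype.card_subtype]
    exact le_trans (Finset.card_le_card hsub) Finset.card_biUnion_le
  calc Nat.card {w : RW n ℓ // ¬ C0 L w.1} * (4 * κ) ^ L
      ≤ (∑ q : Fin n × Fin n × Fin (ℓ + 1), (Finset.univ.filter (Q q)).card) * (4 * κ) ^ L :=
        Nat.mul_le_mul_right _ hcard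
    _ = ∑ q : Fin n × Fin n × Fin (ℓ + 1), (Finset.univ.filter (Q q)).card * (4 * κ) ^ L := by
        rw [Finset.sum_mul]
    _ ≤ ∑ _q : Fin n × Fin n × Fin (ℓ + 1), (4 * κ - 1) ^ L * Nat.card (RW n ℓ) :=
        Finset.sum_le_sum (fun q _ => hA q)
    _ = n ^ 2 * (ℓ + 1) * (4 * κ - 1) ^ L * Nat.card (RW n ℓ) := by
        rw [Finset.sum_const, Finset.card_univ, Fintype.card_prod, Fintype.card_prod,
          Fintype.card_fin, Fintype.card_fin, smul_eq_mul]
        ring

end Pool.Agent.H577R3.RM
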